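import Mathlib

/-!
# Monomials of small degree: number, perturbation, robustness (project UV, third version)
-/

namespace Pool.Agent.Helper20.UV3

open Finset

variable {V : Type*} [Fintype V] [DecidableEq V]

/-- All exponents of degree at most `d` lie in a set with at most `(card V + 1) ^ d` elements. -/
theorem exists_box (V : Type*) [Fintype V] [DecidableEq V] (d : ℕ) :
    ∃ S : Finset (V →₀ ℕ), S.card ≤ (Fintype.card V + 1) ^ d ∧ ∀ u : V →₀ ℕ, u.degree ≤ d → u ∈ S := by
  classical
  induction d with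
  | zero =>
    refine ⟨{0}, by simp, fun u hu => ?_⟩
    have h : u.degree = 0 := by omega
    rw [Finsupp.degree_eq_zero_iff] at h
    simp [h]
  | succ d ih =>
    obtain ⟨S, hS, hm⟩ := ih
    refine ⟨(S ×ˢ (univ : Finset (Option V))).image
      (fun x => x.1 + x.2.elim 0 (fun v => Finsupp.single v 1)), ?_, fun u hu => ?_⟩
    · refine card_image_le.trans ?_
      rw [card_product, card_univ, Fintype.card_option, pow_succ]
      exact Nat.mul_le_mul_right _ hS
    · rw [mem_image]
      by_cases h0 : u = 0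
      · refine ⟨(0, none), ?_, by simp [h0]⟩
        simp only [mem_product, mem_univ, and_true]
        exact hm 0 (by simp)
      · obtain ⟨v, hv⟩ : ∃ v, u v ≠ 0 := by
          by_contra hcon
          push Not at hcon
          exact h0 (Finsupp.ext hcon)
        have hle : Finsupp.single v 1 ≤ u := by
          rw [Finsupp.single_le_iff]
          omega
        have hsum : (u - Finsupp.single v 1) + Finsupp.single v 1 = u := tsub_add_cancel_of_le hle
        refine ⟨(u - Finsupp.single v 1, some v), ?_, hsum⟩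
        simp only [mem_product, mem_univ, and_true]
        apply hm
        have h1 : (u - Finsupp.single v 1).degree + (Finsupp.single v 1 : V →₀ ℕ).degree = u.degree := by
          rw [← map_add, hsum]
        rw [Finsupp.degree_single] at h1
        omega

/-- Number of monomials. -/
theorem card_support (d : ℕ) (g : MvPolynomial V ℝ) (hd : ∀ u ∈ g.support, u.degree ≤ d) :
    g.support.card ≤ (Fintype.card V + 1) ^ d := by
  obtain ⟨S, hS, hm⟩ := exists_box V d
  exact (card_le_card fun u hu => hm u (hd u hu)).trans hS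

theorem prod_add_single (u : V →₀ ℕ) (v : V) (W : V → ℝ) :
    ∏ e, W e ^ ((u + Finsupp.single v 1 : V →₀ ℕ) e) = W v * ∏ e, W e ^ u e := by
  have h : ∀ e, W e ^ ((u + Finsupp.single v 1 : V →₀ ℕ) e) =
      W e ^ u e * (if v = e then W e else 1) := by
    intro e
    rw [Finsupp.add_apply, pow_add, Finsupp.single_apply]
    split_ifs <;> simp
  rw [prod_congr rfl fun e _ => h e, prod_mul_distrib, prod_ite_eq]
  simp [mul_comm]

theorem prod_bound (u : V →₀ ℕ) (W : V → ℝ) (B : ℝ) (hW : ∀ e, |W e| ≤ B) :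
    |∏ e, W e ^ u e| ≤ B ^ u.degree := by
  rw [abs_prod, Finsupp.degree_eq_sum, ← prod_pow_eq_pow_sum]
  refine prod_le_prod (fun e _ => abs_nonneg _) fun e _ => ?_
  rw [abs_pow]
  exact pow_le_pow_left₀ (abs_nonneg _) (hW e) _

/-- Perturbation of a monomial. -/
theorem prod_diff (u : V →₀ ℕ) (W W' : V → ℝ) (B q : ℝ) (hq : 0 ≤ q) (hW : ∀ e, |W e| ≤ B)
    (hW' : ∀ e, |W' e| ≤ B) (hWW : ∀ e, |W e - W' e| ≤ q) :
    B * |∏ e, W e ^ u e - ∏ e, W' e ^ u e| ≤ u.degree * q * B ^ u.degree := by
  have key : ∀ (n : ℕ) (u : V →₀ ℕ), u.degree = n →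
      B * |∏ e, W e ^ u e - ∏ e, W' e ^ u e| ≤ u.degree * q * B ^ u.degree := by
    intro n
    induction n with
    | zero =>
      intro u hu
      rw [Finsupp.degree_eq_zero_iff] at hu
      simp [hu]
    | succ n ih =>
      intro u hu
      obtain ⟨v, hv⟩ : ∃ v, u v ≠ 0 := by
        by_contra hcon
        push Not at hcon
        have : u = 0 := Finsupp.ext hcon
        simp [this] at hu
      have hB : 0 ≤ B := (abs_nonneg _).trans (hW v)
      have hle : Finsupp.single v 1 ≤ u := by
        rw [Finsupp.single_le_iff]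
        omega
      obtain ⟨u', rfl⟩ : ∃ u', u = u' + Finsupp.single v 1 :=
        ⟨u - Finsupp.single v 1, (tsub_add_cancel_of_le hle).symm⟩
      have hdeg : (u' + Finsupp.single v 1).degree = u'.degree + 1 := by
        rw [map_add, Finsupp.degree_single]
      have hu' : u'.degree = n := by omega
      have h1 := ih u' hu'
      rw [prod_add_single, prod_add_single, hdeg]
      set A := ∏ e, W e ^ u' e with hA
      set A' := ∏ e, W' e ^ u' e with hA'
      have hA'b : |A'| ≤ B ^ u'.degree := prod_bound u' W' B hW'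
      have heq : W v * A - W' v * A' = W v * (A - A') + (W v - W' v) * A' := by ring
      rw [heq]
      have h2 : |W v * (A - A') + (W v - W' v) * A'| ≤ B * |A - A'| + q * B ^ u'.degree := by
        refine (abs_add_le _ _).trans ?_
        rw [abs_mul, abs_mul]
        gcongr
        · exact hW v
        · exact hWW v
      calc B * |W v * (A - A') + (W v - W' v) * A'|
          ≤ B * (B * |A - A'| + q * B ^ u'.degree) := by gcongr
        _ = B * (B * |A - A'|) + q * B ^ (u'.degree + 1) := by ring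
        _ ≤ B * (u'.degree * q * B ^ u'.degree) + q * B ^ (u'.degree + 1) := by gcongr
        _ = ((u'.degree + 1 : ℕ) : ℝ) * q * B ^ (u'.degree + 1) := by push_cast; ring
  exact key _ u rfl

/-- Robustness: changing every variable by at most `q` changes the value only by a small multiple of the
dominating monomial `s`. -/
theorem robust (d : ℕ) (g : MvPolynomial V ℝ) (hd : ∀ u ∈ g.support, u.degree ≤ d) (s : V →₀ ℕ)
    (hs : s ∈ g.support) (hs0 : s ≠ 0) (P Λ q : ℝ) (hP : 0 < P) (hΛ : 2 ≤ Λ)
    (htop : ∀ u ∈ g.support, u ≠ 0 →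
      |g.coeff u| * (Λ * P) ^ u.degree ≤ |g.coeff s| * (Λ * P) ^ s.degree)
    (W W' : V → ℝ) (hW : ∀ e, |W e| ≤ 2 * P) (hW' : ∀ e, |W' e| ≤ 2 * P)
    (hWW : ∀ e, |W e - W' e| ≤ q) :
    |MvPolynomial.eval W g - MvPolynomial.eval W' g| ≤
      |g.coeff s| * P ^ s.degree *
        (((Fintype.card V : ℝ) + 1) ^ d * d * q * Λ ^ (d - 1) / P) := by
  obtain ⟨v, hv⟩ : ∃ v, s v ≠ 0 := by
    by_contra hcon
    push Not at hcon
    exact hs0 (Finsupp.ext hcon)
  have hq : 0 ≤ q := (abs_nonneg _).trans (hWW v)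
  have hΛ0 : (0 : ℝ) < Λ := by linarith
  have hsd := hd s hs
  have hs1 : 1 ≤ s.degree := by
    rw [Nat.one_le_iff_ne_zero, Ne, Finsupp.degree_eq_zero_iff]
    exact hs0
  have hd1 : 1 ≤ d := hs1.trans hsd
  set T : ℝ := |g.coeff s| * P ^ s.degree * (d * q * Λ ^ (d - 1) / P) with hT
  have hT0 : 0 ≤ T := by positivity
  have hterm : ∀ u ∈ g.support,
      |g.coeff u * ∏ e, W e ^ u e - g.coeff u * ∏ e, W' e ^ u e| ≤ T := by
    intro u hu
    by_cases hu0 : u = 0
    · simpa [hu0] using hT0
    have hu1 : 1 ≤ u.degree := by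
      rw [Nat.one_le_iff_ne_zero, Ne, Finsupp.degree_eq_zero_iff]
      exact hu0
    have hud := hd u hu
    have h1 := prod_diff u W W' (2 * P) q hq hW hW' hWW
    have h2 := htop u hu hu0
    rw [← mul_sub, abs_mul]
    set D := |∏ e, W e ^ u e - ∏ e, W' e ^ u e| with hD
    have hD0 : 0 ≤ D := abs_nonneg _
    -- D ≤ deg u * q * (2P)^deg u / (2P)
    have h3 : D ≤ u.degree * q * (2 * P) ^ u.degree / (2 * P) := by
      rw [le_div_iff₀ (by positivity)]
      linarith
    have h4 : |g.coeff u| * (2 * P) ^ u.degree ≤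
        |g.coeff s| * P ^ s.degree * (Λ ^ (s.degree - 1) * 2) := by
      have h5 : (2 * P) ^ u.degree = (Λ * P) ^ u.degree * (2 / Λ) ^ u.degree := by
        rw [← mul_pow]
        congr 1
        field_simp
      have h6 : (2 / Λ) ^ u.degree ≤ 2 / Λ := by
        have h7 : 2 / Λ ≤ 1 := by rw [div_le_one hΛ0]; exact hΛ
        calc (2 / Λ) ^ u.degree ≤ (2 / Λ) ^ 1 := pow_le_pow_of_le_one (by positivity) h7 hu1
          _ = 2 / Λ := pow_one _
      rw [h5, ← mul_assoc]
      calc |g.coeff u| * (Λ * P) ^ u.degree * (2 / Λ) ^ u.degree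
          ≤ |g.coeff s| * (Λ * P) ^ s.degree * (2 / Λ) := by gcongr
        _ = |g.coeff s| * P ^ s.degree * (Λ ^ (s.degree - 1) * 2) := by
            rw [mul_pow]
            obtain ⟨k, hk⟩ : ∃ k, s.degree = k + 1 := ⟨s.degree - 1, by omega⟩
            rw [hk, Nat.add_sub_cancel, pow_succ Λ k]
            field_simp
    calc |g.coeff u| * D
        ≤ |g.coeff u| * (u.degree * q * (2 * P) ^ u.degree / (2 * P)) := by gcongr
      _ = (|g.coeff u| * (2 * P) ^ u.degree) * (u.degree * q / (2 * P)) := by ring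
      _ ≤ (|g.coeff s| * P ^ s.degree * (Λ ^ (s.degree - 1) * 2)) * (d * q / (2 * P)) := by
          gcongr
      _ = |g.coeff s| * P ^ s.degree * (d * q * Λ ^ (s.degree - 1) / P) := by
          field_simp
      _ ≤ T := by
          rw [hT]
          gcongr
          linarith
  rw [MvPolynomial.eval_eq', MvPolynomial.eval_eq', ← sum_sub_distrib]
  calc |∑ u ∈ g.support, (g.coeff u * ∏ e, W e ^ u e - g.coeff u * ∏ e, W' e ^ u e)|
      ≤ ∑ u ∈ g.support, |g.coeff u * ∏ e, W e ^ u e - g.coeff u * ∏ e, W' e ^ u e| :=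
        abs_sum_le_sum_abs _ _
    _ ≤ ∑ _u ∈ g.support, T := sum_le_sum hterm
    _ = g.support.card * T := by rw [sum_const, nsmul_eq_mul]
    _ ≤ ((Fintype.card V : ℝ) + 1) ^ d * T := by
        gcongr
        have := card_support d g hd
        exact_mod_cast this
    _ = |g.coeff s| * P ^ s.degree *
        (((Fintype.card V : ℝ) + 1) ^ d * d * q * Λ ^ (d - 1) / P) := by
        rw [hT]; ring

end Pool.Agent.Helper20.UV3
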